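import Pool.Agent.Hhelper75.Star.Central

/-!
# Iterated maximal left star factorization: languages whose idempotents move to the left

Outline of the proof.  If a nonempty `s` were in the maximal left star of the minimal tail `C`,
a power `t` of `s` would map to an idempotent `e`; for `a = b c` in `A` with `b` in the maximal
left star of `A` and `c` in `C`, the word `b t c` is in `A`, hence so is `t b c = t a`.  So `t`
stabilises `A` and `t c` would have been removed from `C`.
-/

namespace Pool.Agent.Results.MP_a69800_lc.CentralIdempotents

open Pool.Agent.Hhelper75.Star

/-- If `A` is recognised by a finite monoid `M` through a subset `K` such that `x e y ∈ K` implies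
`e x y ∈ K` for all idempotents `e`, then the procedure terminates for `A` after one step. -/
theorem result (α M : Type) [Monoid M] [Finite M] (h : FreeMonoid α →* M) (K : Set M)
    (hK : ∀ e x y : M, e * e = e → x * e * y ∈ K → e * x * y ∈ K) (A : Set (List α))
    (hA : ∀ w : List α, w ∈ A ↔ h (FreeMonoid.ofList w) ∈ K) (hne : A.Nonempty) :
    leftStar (minTail^[1] A) = {[]} :=
  central_terminates h K hK hA hne

end Pool.Agent.Results.MP_a69800_lc.CentralIdempotents
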