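import Pool.Agent.Hhelper75.Star.Down

/-!
# Iterated maximal left star factorization: downward closed languages

Outline of the proof.  Let `A` be closed under taking scattered subwords, `C_0 = A`,
`C_{j+1}` the minimal tail of `C_j` and `B_{j+1}` the maximal left star of `C_j`.  By induction on
`j` the first letter of every nonempty word of `B_{j+1}` is itself a word of `B_{j+1}`
(`PP_all`; the heart is `no_pair`).  As the empty word is in all the `C_j`, different stars
`B_j` have only the empty word in common, so the number of nontrivial `B_j` is at most the
number of letters.
-/

namespace Pool.Agent.Results.MP_a69800_lc.DownwardClosed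

open Pool.Agent.Hhelper75.Star

/-- For a nonempty language closed under taking scattered subwords the procedure terminates
within `|α|` steps. -/
theorem result (α : Type) [Fintype α] (A : Set (List α)) (hne : A.Nonempty)
    (hA : ∀ u v : List α, v ∈ A → u.Sublist v → u ∈ A) :
    ∃ n ≤ Fintype.card α, leftStar (minTail^[n] A) = {[]} :=
  down_terminates hA hne

end Pool.Agent.Results.MP_a69800_lc.DownwardClosed
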