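import Pool.Agent.EXS.Count
import Pool.Agent.EXS.Binary

/-!
# Iterated maximal left star factorization: an exponential lower bound for the number of steps

For every `r ≥ 1` a deterministic automaton with `7 r + 16` states over `4 r + 6` letters is
constructed for whose language the procedure takes exactly `2 ^ r + 1` steps; an encoding of the
letters gives the same over two letters, with `28 r ^ 2 + 106 r + 97` states.

The second minimal tail consists of the products of tokens `w_t` (`1 ≤ t < 2 ^ r`) and of some
other pieces such that `w_t w_{t+1}` does not occur, while `w_t w_s` is allowed for `s ≤ t`.  So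
the last token can be followed by everything; it is removed by the next step, and this happens to
all tokens one after the other.
-/

namespace Pool.Agent.Results.MP_a69800_lc.ExponentialSteps

open Pool.Agent.Hhelper75.Star Pool.Agent.EXS

/-- The procedure started with `X` takes exactly `n` steps: the maximal left star of `C_k` is
different from `1` for `k < n`, and it is `1` for `k = n`. -/
def TakesExactly (n : ℕ) {α : Type} (X : Set (List α)) : Prop :=
  (∀ k < n, leftStar (minTail^[k] X) ≠ {[]}) ∧ leftStar (minTail^[n] X) = {[]}

/-- The number of steps of the procedure can be exponential in the number of states. -/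
theorem result (r : ℕ) (hr : 1 ≤ r) :
    (∃ (α : Type) (_ : Fintype α) (σ : Type) (_ : Fintype σ) (M : DFA α σ),
      Fintype.card α = 4 * r + 6 ∧ Fintype.card σ = 7 * r + 16 ∧
        TakesExactly (2 ^ r + 1) {w | w ∈ M.accepts}) ∧
    (∃ (σ : Type) (_ : Fintype σ) (M : DFA Bool σ),
      Fintype.card σ = 28 * r ^ 2 + 106 * r + 97 ∧
        TakesExactly (2 ^ r + 1) {w | w ∈ M.accepts}) := by
  have hX : {w | w ∈ (M r).accepts} = X0 r := by
    ext w
    exact (acc_iff_evalFrom _ w).symm
  have h0 : ([] : List (Lt r)) ∈ X0 r := rfl
  refine ⟨⟨Lt r, inferInstance, St r, inferInstance, M r, card_Lt r, card_St r, ?_⟩, ?_⟩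
  · rw [hX]
    exact steps r hr
  · have hm : 0 < 4 * r + 6 := by omega
    let e : Lt r ≃ Fin (4 * r + 6) := Fintype.equivFinOfCardEq (card_Lt r)
    refine ⟨Option (St r × Fin (4 * r + 6)), inferInstance, binDFA e (M r) hm, ?_, ?_⟩
    · rw [Fintype.card_option, Fintype.card_prod, card_St, Fintype.card_fin]
      ring
    · rw [bin_accepts, hX]
      obtain ⟨h1, h2⟩ := steps r hr
      refine ⟨?_, (leftStar_iter_enc e h0 _).2 h2⟩
      intro k hk hc
      exact h1 k hk ((leftStar_iter_enc e h0 k).1 hc)

end Pool.Agent.Results.MP_a69800_lc.ExponentialSteps
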