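import Pool.Agent.Hhelper75.Star.Growth

/-!
# Iterated maximal left star factorization: a star times a small language, up to a small set

Outline of the proof.  If `s` is a nonempty word of the maximal left star of `X` and `C` is the
minimal tail, the words `s ^ i c` with `c` in `C` are pairwise different words of `X`, so a bound
`O(n ^ d)` for the growth of `X` gives `O(n ^ (d - 1))` for `C`, and finite languages have trivial
left star.  The minimal tail of `G* D \ N` is contained in `P D ∪ P G N`, where `P` consists of the
prefixes of words of `N`.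
-/

namespace Pool.Agent.Results.MP_a69800_lc.PolynomialGrowth

open Pool.Agent.Hhelper75.Star

/-- Let `A = G* D \ N` be nonempty, where `N` is regular, `D` has growth `O(n ^ d)`, `N` has growth
`O(n ^ p)`, and `N` is empty or `G` has growth `O(n ^ g)`.  Then the procedure terminates for `A`
within `max (p + d) (2 p + g) + 1` steps. -/
theorem result (α : Type) [Fintype α] (A G D N : Set (List α)) (c₁ c₂ c₃ g d p : ℕ)
    (σ : Type) [Fintype σ] (M : DFA α σ) (hne : A.Nonempty)
    (hA : A = {w | (∃ L : List (List α), (∀ x ∈ L, x ∈ G) ∧ ∃ y ∈ D, L.flatten ++ y = w) ∧ w ∉ N})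
    (hM : ∀ x : List α, x ∈ N ↔ x ∈ M.accepts)
    (hD : GrowthBound D c₂ d) (hN : GrowthBound N c₃ p) (hG : N = ∅ ∨ GrowthBound G c₁ g) :
    ∃ n ≤ max (p + d) (2 * p + g) + 1, leftStar (minTail^[n] A) = {[]} :=
  combined_terminates M hne hA hG hD hM hN

end Pool.Agent.Results.MP_a69800_lc.PolynomialGrowth
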